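import Mathlib
import Pool.Agent.H594Z.RRMain

set_option autoImplicit false

open Filter Topology

namespace Pool.Agent.Results.MP_ccfaf0_pr.NotReconstructable

open Pool.Agent.H594Z.RR

/-- There is `c > 0` (one can take `c = 1/6`) such that whenever `ε > 0` and
`n^ε ≤ d_n ≤ n^(c-ε)` (with `n d_n` even) for all large `n`, the probability that a uniformly
random `d_n`-regular graph on `n` vertices is not reconstructable from its 3-neighbourhoods
tends to `1`. -/
theorem result : ∃ c : ℝ, 1 / 6 ≤ c ∧ ∀ ε : ℝ, 0 < ε → ∀ d : ℕ → ℕ,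
    (∀ᶠ n : ℕ in atTop, Even (n * d n) ∧ (n : ℝ) ^ ε ≤ d n ∧ (d n : ℝ) ≤ (n : ℝ) ^ (c - ε)) →
    Tendsto (fun n => probNotRec n (d n) 3) atTop (𝓝 1) := by
  refine ⟨1 / 6, le_rfl, fun ε hε d hd => main 3 (by norm_num) ε hε d ?_⟩
  rw [show (1 : ℝ) / (2 * ((3 : ℕ) : ℝ)) = 1 / 6 by norm_num]
  exact hd

end Pool.Agent.Results.MP_ccfaf0_pr.NotReconstructable
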